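import Pool.Agent.R323.SE.J

/-!
# Integers composed of the primes of a given integer
-/

set_option autoImplicit false

namespace Pool.Agent.R323.NA

open Finset Pool.Agent.R323.SE

/-- The divisor bound `d(n) ≤ C n^δ`. -/
lemma divisor_bound (δ : ℝ) (hδ : 0 < δ) :
    ∃ C : ℝ, 0 < C ∧ ∀ n : ℕ, n ≠ 0 → ((n.divisors.card : ℕ) : ℝ) ≤ C * (n : ℝ) ^ δ := by
  have hlog : 0 < Real.log 2 := Real.log_pos (by norm_num)
  have hδl : 0 < δ * Real.log 2 := mul_pos hδ hlog
  set M : ℝ := max 1 (1 / (δ * Real.log 2)) with hM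
  have hM1 : 1 ≤ M := le_max_left _ _
  have hM2 : 1 ≤ M * (δ * Real.log 2) := by
    have : 1 / (δ * Real.log 2) ≤ M := le_max_right _ _
    calc (1 : ℝ) = 1 / (δ * Real.log 2) * (δ * Real.log 2) := by
          field_simp
      _ ≤ M * (δ * Real.log 2) := mul_le_mul_of_nonneg_right this hδl.le
  set K : ℕ := ⌈(2 : ℝ) ^ (1 / δ)⌉₊ with hK
  have hKle : (2 : ℝ) ^ (1 / δ) ≤ (K : ℝ) := Nat.le_ceil _
  refine ⟨M ^ K, by positivity, ?_⟩
  intro n hn
  have hbase : ∀ p ∈ n.primeFactors, (((n.factorization p + 1 : ℕ)) : ℝ) ≤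
      (if p < K then M else 1) * (((p : ℝ) ^ (n.factorization p)) ^ δ) := by
    intro p hp
    have hpp : p.Prime := Nat.prime_of_mem_primeFactors hp
    set a := n.factorization p with ha
    have hp2 : (2 : ℝ) ≤ (p : ℝ) := by exact_mod_cast hpp.two_le
    have hp0 : (0 : ℝ) ≤ (p : ℝ) := by positivity
    have hpow : (((p : ℝ) ^ a) ^ δ) = ((p : ℝ) ^ δ) ^ a := by
      rw [← Real.rpow_natCast (p : ℝ) a, ← Real.rpow_mul hp0, ← Real.rpow_natCast ((p : ℝ) ^ δ) a,
        ← Real.rpow_mul hp0, mul_comm]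
    rw [hpow]
    split_ifs with hlt
    · have h1 : (2 : ℝ) ^ δ ≤ (p : ℝ) ^ δ := Real.rpow_le_rpow (by norm_num) hp2 hδ.le
      have h2 : ((2 : ℝ) ^ δ) ^ a ≤ ((p : ℝ) ^ δ) ^ a :=
        pow_le_pow_left₀ (by positivity) h1 a
      have h3 : 1 + (a : ℝ) * (δ * Real.log 2) ≤ ((2 : ℝ) ^ δ) ^ a := by
        have : ((2 : ℝ) ^ δ) ^ a = Real.exp ((a : ℝ) * (δ * Real.log 2)) := by
          rw [← Real.rpow_natCast, ← Real.rpow_mul (by norm_num), Real.rpow_def_of_pos (by norm_num)]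
          congr 1; ring
        rw [this]
        have := Real.add_one_le_exp ((a : ℝ) * (δ * Real.log 2))
        linarith
      have h4 : (((a + 1 : ℕ)) : ℝ) ≤ M * (1 + (a : ℝ) * (δ * Real.log 2)) := by
        push_cast
        have ha0 : (0 : ℝ) ≤ (a : ℝ) := by positivity
        nlinarith [mul_le_mul_of_nonneg_left hM2 ha0]
      calc (((a + 1 : ℕ)) : ℝ) ≤ M * (1 + (a : ℝ) * (δ * Real.log 2)) := h4
        _ ≤ M * (((p : ℝ) ^ δ) ^ a) :=
          mul_le_mul_of_nonneg_left (h3.trans h2) (by linarith)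
    · have hKp : (K : ℝ) ≤ (p : ℝ) := by exact_mod_cast not_lt.mp hlt
      have h1 : (2 : ℝ) ≤ (p : ℝ) ^ δ := by
        have h5 : ((2 : ℝ) ^ (1 / δ)) ^ δ ≤ (p : ℝ) ^ δ :=
          Real.rpow_le_rpow (by positivity) (hKle.trans hKp) hδ.le
        have h6 : ((2 : ℝ) ^ (1 / δ)) ^ δ = 2 := by
          rw [← Real.rpow_mul (by norm_num)]
          rw [one_div, inv_mul_cancel₀ hδ.ne', Real.rpow_one]
        rwa [h6] at h5
      have h2 : (2 : ℝ) ^ a ≤ ((p : ℝ) ^ δ) ^ a := pow_le_pow_left₀ (by norm_num) h1 a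
      have h3 : (((a + 1 : ℕ)) : ℝ) ≤ (2 : ℝ) ^ a := by
        have : a + 1 ≤ 2 ^ a := Nat.lt_two_pow_self
        exact_mod_cast this
      rw [one_mul]
      exact h3.trans h2
  have hn' : (n : ℝ) ^ δ = ∏ p ∈ n.primeFactors, (((p : ℝ) ^ (n.factorization p)) ^ δ) := by
    rw [Real.finsetProd_rpow _ _ (fun i _ => by positivity)]
    congr 1
    have := Nat.prod_factorization_pow_eq_self hn
    conv_lhs => rw [← this]
    rw [Finsupp.prod]
    push_cast
    rfl
  rw [Nat.card_divisors hn]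
  push_cast
  calc (∏ p ∈ n.primeFactors, ((n.factorization p : ℝ) + 1))
      ≤ ∏ p ∈ n.primeFactors, ((if p < K then M else 1) * (((p : ℝ) ^ (n.factorization p)) ^ δ)) := by
        apply Finset.prod_le_prod
        · intro i _; positivity
        · intro i hi
          have := hbase i hi
          push_cast at this
          exact this
    _ = (∏ p ∈ n.primeFactors, (if p < K then M else 1)) * (n : ℝ) ^ δ := by
        rw [Finset.prod_mul_distrib, hn']
    _ ≤ M ^ K * (n : ℝ) ^ δ := by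
        apply mul_le_mul_of_nonneg_right _ (by positivity)
        rw [Finset.prod_ite, Finset.prod_const, Finset.prod_const_one, mul_one]
        apply pow_le_pow_right₀ hM1
        calc (n.primeFactors.filter (fun p => p < K)).card ≤ (Finset.range K).card := by
              apply Finset.card_le_card
              intro x hx
              simp only [Finset.mem_filter] at hx
              exact Finset.mem_range.mpr hx.2
          _ = K := Finset.card_range K

theorem split_dvd {k m B : ℕ} (hm : m ≠ 0) (hk : 1 ≤ k) (hB : B ≠ 0)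
    (h : ∀ p : ℕ, p.Prime → p ∣ m → p ∣ B) : ∃ u v : ℕ, u ^ k * v = m ∧ v ∣ B ^ k := by
  classical
  refine ⟨∏ p ∈ m.primeFactors, p ^ (m.factorization p / k),
    ∏ p ∈ m.primeFactors, p ^ (m.factorization p % k), ?_, ?_⟩
  · rw [← Finset.prod_pow, ← Finset.prod_mul_distrib]
    conv_rhs => rw [← Nat.prod_factorization_pow_eq_self hm]
    rw [Finsupp.prod, Nat.support_factorization]
    refine Finset.prod_congr rfl fun p _ => ?_
    rw [← pow_mul, ← pow_add]
    congr 1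
    rw [mul_comm]
    exact Nat.div_add_mod _ _
  · have h1 : ∏ p ∈ m.primeFactors, p ^ (m.factorization p % k) ∣ ∏ p ∈ m.primeFactors, p ^ k :=
      Finset.prod_dvd_prod_of_dvd _ _ fun p _ => pow_dvd_pow _ (Nat.mod_lt _ (by omega)).le
    have h2 : ∏ p ∈ m.primeFactors, p ∣ ∏ p ∈ B.primeFactors, p := by
      refine Finset.prod_dvd_prod_of_subset _ _ _ fun p hp => ?_
      have hp1 := Nat.prime_of_mem_primeFactors hp
      exact Nat.mem_primeFactors.2 ⟨hp1, h p hp1 (Nat.dvd_of_mem_primeFactors hp), hB⟩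
    rw [Finset.prod_pow] at h1
    exact h1.trans (pow_dvd_pow_of_dvd (h2.trans (Nat.prod_primeFactors_dvd B)) k)

/-- the nonzero integers of absolute value at most `X` composed of primes dividing `B` -/
noncomputable def SM (X B : ℕ) : Finset ℤ :=
  open Classical in (Finset.Icc (-(X : ℤ)) X).filter fun m => m ≠ 0 ∧
    ∀ p : ℕ, p.Prime → (p : ℤ) ∣ m → p ∣ B

theorem mem_SM {X B : ℕ} {m : ℤ} : m ∈ SM X B ↔ |m| ≤ (X : ℤ) ∧ m ≠ 0 ∧
    ∀ p : ℕ, p.Prime → (p : ℤ) ∣ m → p ∣ B := by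
  classical
  unfold SM
  rw [Finset.mem_filter, Finset.mem_Icc, abs_le]

theorem card_SM (η : ℝ) (hη : 0 < η) : ∃ C : ℝ, 0 < C ∧ ∀ X B : ℕ, 1 ≤ X → 1 ≤ B →
    ((SM X B).card : ℝ) ≤ C * ((X : ℝ) ^ η * (B : ℝ) ^ η) := by
  classical
  obtain ⟨k, hk⟩ := exists_nat_gt (max 1 (1 / η))
  have hk1 : (1 : ℝ) < k := (le_max_left _ _).trans_lt hk
  have hk1' : 1 ≤ k := by exact_mod_cast hk1.le
  have hkη : 1 / (k : ℝ) ≤ η := by
    have h1 := (le_max_right 1 (1 / η)).trans_lt hk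
    rw [div_lt_iff₀ hη] at h1
    rw [div_le_iff₀ (by linarith)]
    linarith
  obtain ⟨C₀, hC₀, hdiv⟩ := divisor_bound (η / k) (by positivity)
  refine ⟨4 * C₀, by positivity, fun X B hX hB => ?_⟩
  have hXR : (1 : ℝ) ≤ X := by exact_mod_cast hX
  have hBR : (1 : ℝ) ≤ B := by exact_mod_cast hB
  obtain ⟨U, hU⟩ : ∃ U, U = ⌊(X : ℝ) ^ (1 / (k : ℝ))⌋₊ := ⟨_, rfl⟩
  have hkpos : (0 : ℝ) < k := by linarith
  have hU1 : X < (U + 1) ^ k := by
    have h1 : (X : ℝ) ^ (1 / (k : ℝ)) < (U : ℝ) + 1 := by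
      rw [hU]
      exact Nat.lt_floor_add_one _
    have h2 : (X : ℝ) < ((U : ℝ) + 1) ^ k := by
      calc (X : ℝ) = ((X : ℝ) ^ (1 / (k : ℝ))) ^ k := by
            rw [← Real.rpow_natCast, ← Real.rpow_mul (Nat.cast_nonneg _), one_div,
              inv_mul_cancel₀ hkpos.ne', Real.rpow_one]
        _ < ((U : ℝ) + 1) ^ k := pow_lt_pow_left₀ h1 (by positivity) (by omega)
    exact_mod_cast h2
  obtain ⟨W, hW⟩ : ∃ W : Finset ℕ, W = ((Finset.range (U + 1)) ×ˢ (B ^ k).divisors).image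
    fun q => q.1 ^ k * q.2 := ⟨_, rfl⟩
  have h1 : SM X B ⊆ pm W := by
    intro m hm
    obtain ⟨hm1, hm2, hm3⟩ := mem_SM.1 hm
    refine mem_pm ?_
    have hm4 : m.natAbs ≤ X := by
      rw [Int.abs_eq_natAbs] at hm1
      exact_mod_cast hm1
    have hm5 : m.natAbs ≠ 0 := Int.natAbs_ne_zero.2 hm2
    obtain ⟨u, v, huv, hv⟩ := split_dvd (k := k) hm5 hk1' (by omega : B ≠ 0)
      (fun p hp hpm => hm3 p hp (Int.natCast_dvd.2 hpm))
    rw [hW, Finset.mem_image]
    refine ⟨(u, v), Finset.mem_product.2 ⟨Finset.mem_range.2 ?_, Nat.mem_divisors.2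
      ⟨hv, pow_ne_zero _ (by omega)⟩⟩, huv⟩
    by_contra hcon
    push Not at hcon
    have hcon' : U + 1 ≤ u := hcon
    have h2 := Nat.pow_le_pow_left hcon' k
    have h3 : v ≠ 0 := by
      rintro rfl
      rw [mul_zero] at huv
      exact hm5 huv.symm
    have h4 : u ^ k ≤ m.natAbs := by
      calc u ^ k = u ^ k * 1 := (mul_one _).symm
        _ ≤ u ^ k * v := Nat.mul_le_mul_left _ (by omega)
        _ = _ := huv
    omega
  have h2 : ((SM X B).card : ℝ) ≤ 2 * (((U : ℝ) + 1) * ((B ^ k).divisors.card : ℝ)) := by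
    have e1 := (Finset.card_le_card h1).trans (card_pm W)
    have e2 : W.card ≤ (U + 1) * (B ^ k).divisors.card := by
      rw [hW]
      refine Finset.card_image_le.trans (le_of_eq ?_)
      rw [Finset.card_product, Finset.card_range]
    have e3 : (SM X B).card ≤ 2 * ((U + 1) * (B ^ k).divisors.card) :=
      e1.trans (Nat.mul_le_mul_left _ e2)
    exact_mod_cast e3
  have h3 : (U : ℝ) + 1 ≤ 2 * (X : ℝ) ^ η := by
    have e1 : (U : ℝ) ≤ (X : ℝ) ^ (1 / (k : ℝ)) := by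
      rw [hU]
      exact Nat.floor_le (by positivity)
    have e2 : (X : ℝ) ^ (1 / (k : ℝ)) ≤ (X : ℝ) ^ η := Real.rpow_le_rpow_of_exponent_le hXR hkη
    have e3 : (1 : ℝ) ≤ (X : ℝ) ^ η := Real.one_le_rpow hXR hη.le
    linarith
  have h4 : ((B ^ k).divisors.card : ℝ) ≤ C₀ * (B : ℝ) ^ η := by
    refine (hdiv (B ^ k) (pow_ne_zero _ (by omega))).trans (le_of_eq ?_)
    push_cast
    rw [← Real.rpow_natCast, ← Real.rpow_mul (by linarith)]
    congr 2
    field_simp
  calc ((SM X B).card : ℝ) ≤ 2 * (((U : ℝ) + 1) * ((B ^ k).divisors.card : ℝ)) := h2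
    _ ≤ 2 * ((2 * (X : ℝ) ^ η) * (C₀ * (B : ℝ) ^ η)) := by
        refine mul_le_mul_of_nonneg_left (mul_le_mul h3 h4 (by positivity) (by positivity))
          (by norm_num)
    _ = _ := by ring

end Pool.Agent.R323.NA
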