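import Pool.Agent.R323.NA.A

/-!
# The primes dividing the terms of a vanishing sum
-/

set_option autoImplicit false

namespace Pool.Agent.R323.NA

open Finset Pool.Agent.R323.SE

variable {n : ℕ}

/-- the primes dividing some term -/
def PP (x : Fin n → ℤ) : Finset ℕ := (∏ j, x j).natAbs.primeFactors

/-- the terms divisible by `p` -/
def II (x : Fin n → ℤ) (p : ℕ) : Finset (Fin n) := Finset.univ.filter fun i => (p : ℤ) ∣ x i

theorem mem_II {x : Fin n → ℤ} {p : ℕ} {i : Fin n} : i ∈ II x p ↔ (p : ℤ) ∣ x i := by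
  unfold II
  rw [Finset.mem_filter]
  exact ⟨fun h => h.2, fun h => ⟨Finset.mem_univ _, h⟩⟩

theorem mem_PP {x : Fin n → ℤ} (hx : ∀ i, x i ≠ 0) {p : ℕ} :
    p ∈ PP x ↔ p.Prime ∧ ∃ j, (p : ℤ) ∣ x j := by
  unfold PP
  rw [Nat.mem_primeFactors]
  constructor
  · rintro ⟨h1, h2, h3⟩
    refine ⟨h1, ?_⟩
    have h4 : (p : ℤ) ∣ ∏ j, x j := Int.natCast_dvd.2 h2
    obtain ⟨j, -, hj⟩ := (Nat.prime_iff_prime_int.1 h1).exists_mem_finset_dvd h4
    exact ⟨j, hj⟩
  · rintro ⟨h1, j, hj⟩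
    refine ⟨h1, Int.natCast_dvd.1 (hj.trans (Finset.dvd_prod_of_mem _ (Finset.mem_univ j))), ?_⟩
    rw [Int.natAbs_ne_zero]
    exact Finset.prod_ne_zero_iff.2 fun i _ => hx i

/-- the possible sets -/
def FF (n : ℕ) : Finset (Finset (Fin n)) := Finset.univ.filter fun I => I.Nonempty ∧ I.card + 2 ≤ n

theorem mem_FF {I : Finset (Fin n)} : I ∈ FF n ↔ I.Nonempty ∧ I.card + 2 ≤ n := by
  unfold FF
  rw [Finset.mem_filter]
  exact ⟨fun h => h.2, fun h => ⟨Finset.mem_univ _, h⟩⟩

theorem card_FF (hn : 3 ≤ n) : (FF n).card + (n + 2) ≤ 2 ^ n := by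
  classical
  have h1 : (FF n) ∪ ({∅} ∪ (Finset.powersetCard (n - 1) Finset.univ ∪ {Finset.univ})) ⊆
      (Finset.univ : Finset (Finset (Fin n))) := Finset.subset_univ _
  have h2 := Finset.card_le_card h1
  have hd1 : Disjoint (Finset.powersetCard (n - 1) (Finset.univ : Finset (Fin n)))
      {Finset.univ} := by
    rw [Finset.disjoint_singleton_right, Finset.mem_powersetCard]
    rintro ⟨-, h⟩
    rw [Finset.card_univ, Fintype.card_fin] at h
    omega
  have hd2 : Disjoint ({∅} : Finset (Finset (Fin n)))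
      (Finset.powersetCard (n - 1) (Finset.univ : Finset (Fin n)) ∪ {Finset.univ}) := by
    rw [Finset.disjoint_singleton_left, Finset.mem_union, Finset.mem_powersetCard,
      Finset.mem_singleton]
    rintro (⟨-, h⟩ | h)
    · rw [Finset.card_empty] at h
      omega
    · have := congrArg Finset.card h
      rw [Finset.card_empty, Finset.card_univ, Fintype.card_fin] at this
      omega
  have hd3 : Disjoint (FF n) ({∅} ∪
      (Finset.powersetCard (n - 1) (Finset.univ : Finset (Fin n)) ∪ {Finset.univ})) := by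
    rw [Finset.disjoint_left]
    intro I hI hI2
    obtain ⟨h3, h4⟩ := mem_FF.1 hI
    rw [Finset.mem_union, Finset.mem_union, Finset.mem_powersetCard, Finset.mem_singleton,
      Finset.mem_singleton] at hI2
    rcases hI2 with h | ⟨-, h⟩ | h
    · rw [h] at h3
      exact Finset.not_nonempty_empty h3
    · omega
    · rw [h, Finset.card_univ, Fintype.card_fin] at h4
      omega
  rw [Finset.card_union_of_disjoint hd3, Finset.card_union_of_disjoint hd2,
    Finset.card_union_of_disjoint hd1, Finset.card_powersetCard, Finset.card_univ,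
    Fintype.card_fin, Finset.card_univ, Fintype.card_finset, Fintype.card_fin,
    Finset.card_singleton, Finset.card_singleton] at h2
  have h3 : n.choose (n - 1) = n := by
    have := Nat.choose_symm (n := n) (k := 1) (by omega)
    rw [this, Nat.choose_one_right]
  omega

/-- admissible tuples -/
def Adm (x : Fin n → ℤ) : Prop :=
  ∑ i, x i = 0 ∧ Finset.univ.gcd x = 1 ∧
    ∀ I : Finset (Fin n), I.Nonempty → I ≠ Finset.univ → ∑ i ∈ I, x i ≠ 0

theorem Adm.ne_zero (hn : 3 ≤ n) {x : Fin n → ℤ} (h : Adm x) (i : Fin n) : x i ≠ 0 := by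
  have h1 := h.2.2 {i} (Finset.singleton_nonempty i) (by
    intro h0
    have := congrArg Finset.card h0
    rw [Finset.card_singleton, Finset.card_univ, Fintype.card_fin] at this
    omega)
  rwa [Finset.sum_singleton] at h1

theorem Adm.II_mem (hn : 3 ≤ n) {x : Fin n → ℤ} (h : Adm x) {p : ℕ} (hp : p ∈ PP x) :
    II x p ∈ FF n := by
  classical
  obtain ⟨hp1, j, hj⟩ := (mem_PP (h.ne_zero hn)).1 hp
  rw [mem_FF]
  refine ⟨⟨j, mem_II.2 hj⟩, ?_⟩
  by_contra hcon
  push Not at hcon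
  have h1 : ((II x p)ᶜ).card ≤ 1 := by
    rw [Finset.card_compl, Fintype.card_fin]
    omega
  have h2 : ∀ i, (p : ℤ) ∣ x i := by
    intro i
    by_contra hi
    have hi' : i ∈ (II x p)ᶜ := by
      rw [Finset.mem_compl, mem_II]
      exact hi
    apply hi
    have h3 : ∑ k, x k = x i + ∑ k ∈ Finset.univ.erase i, x k :=
      (Finset.add_sum_erase _ _ (Finset.mem_univ i)).symm
    rw [h.1] at h3
    have h4 : (p : ℤ) ∣ ∑ k ∈ Finset.univ.erase i, x k := by
      refine Finset.dvd_sum fun k hk => ?_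
      by_contra hk'
      have hk2 : k ∈ (II x p)ᶜ := by
        rw [Finset.mem_compl, mem_II]
        exact hk'
      exact (Finset.mem_erase.1 hk).1 (Finset.card_le_one.1 h1 k hk2 i hi')
    have h5 : x i = -∑ k ∈ Finset.univ.erase i, x k := by linarith
    rw [h5]
    exact (dvd_neg).2 h4
  have h3 : (p : ℤ) ∣ Finset.univ.gcd x := Finset.dvd_gcd fun i _ => h2 i
  rw [h.2.1] at h3
  exact (Nat.prime_iff_prime_int.1 hp1).not_unit (isUnit_of_dvd_one h3)

/-- the radical -/
def RR (x : Fin n → ℤ) : ℕ := ∏ p ∈ PP x, p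

/-- the part of the radical with a given set -/
def RK (x : Fin n → ℤ) (K : Finset (Fin n)) : ℕ := ∏ p ∈ (PP x).filter (fun p => II x p = K), p

/-- the remaining part -/
def QK (x : Fin n → ℤ) (K : Finset (Fin n)) : ℕ := ∏ p ∈ (PP x).filter (fun p => ¬ II x p = K), p

theorem RK_mul_QK (x : Fin n → ℤ) (K : Finset (Fin n)) : RK x K * QK x K = RR x :=
  Finset.prod_filter_mul_prod_filter_not _ _ _

theorem prod_pos' (s : Finset ℕ) (x : Fin n → ℤ) (h : s ⊆ PP x) : 0 < ∏ p ∈ s, p :=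
  Finset.prod_pos fun _ hp => (Nat.prime_of_mem_primeFactors (h hp)).pos

theorem prod_RK (hn : 3 ≤ n) {x : Fin n → ℤ} (h : Adm x) : ∏ K ∈ FF n, RK x K = RR x :=
  Finset.prod_fiberwise_of_maps_to (fun _ hp => h.II_mem hn hp) _

theorem exists_K (hn : 3 ≤ n) {x : Fin n → ℤ} (h : Adm x) {M : ℕ} (hM : (FF n).card ≤ M) :
    ∃ K ∈ FF n, RR x ≤ (RK x K) ^ M := by
  classical
  by_contra hcon
  push Not at hcon
  have hne : (FF n).Nonempty := by
    refine ⟨{⟨0, by omega⟩}, mem_FF.2 ⟨Finset.singleton_nonempty _, ?_⟩⟩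
    rw [Finset.card_singleton]
    omega
  have hR : 1 ≤ RR x := prod_pos' _ x (Finset.Subset.refl _)
  have h1 : ∏ K ∈ FF n, (RK x K) ^ M < ∏ _K ∈ FF n, RR x :=
    Finset.prod_lt_prod_of_nonempty (fun K _ => pow_pos (prod_pos' _ x (Finset.filter_subset _ _)) _)
      hcon hne
  rw [Finset.prod_pow, prod_RK hn h, Finset.prod_const] at h1
  exact absurd h1 (not_lt.2 (Nat.pow_le_pow_right hR hM))

theorem QK_le {x : Fin n → ℤ} {M : ℕ} (hM1 : 1 ≤ M) {K : Finset (Fin n)}
    (hK : RR x ≤ (RK x K) ^ M) : (QK x K : ℝ) ≤ (RR x : ℝ) ^ (1 - 1 / (M : ℝ)) := by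
  have hR : 1 ≤ RR x := prod_pos' _ x (Finset.Subset.refl _)
  have hRR : (1 : ℝ) ≤ RR x := by exact_mod_cast hR
  have hMR : (0 : ℝ) < M := by exact_mod_cast hM1
  have h1 : (QK x K) ^ M ≤ (RR x) ^ (M - 1) := by
    have h2 : RR x * (QK x K) ^ M ≤ RR x * (RR x) ^ (M - 1) := by
      calc RR x * (QK x K) ^ M ≤ (RK x K) ^ M * (QK x K) ^ M := Nat.mul_le_mul_right _ hK
        _ = (RR x) ^ M := by rw [← mul_pow, RK_mul_QK]
        _ = RR x * (RR x) ^ (M - 1) := by
            rw [← pow_succ']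
            congr 1
            omega
    exact Nat.le_of_mul_le_mul_left h2 hR
  have h2 : ((QK x K : ℝ)) ^ M ≤ (RR x : ℝ) ^ (M - 1) := by exact_mod_cast h1
  have h3 : (QK x K : ℝ) = ((QK x K : ℝ) ^ M) ^ (1 / (M : ℝ)) := by
    rw [← Real.rpow_natCast, ← Real.rpow_mul (Nat.cast_nonneg _), mul_one_div_cancel hMR.ne',
      Real.rpow_one]
  rw [h3]
  refine (Real.rpow_le_rpow (by positivity) h2 (by positivity)).trans (le_of_eq ?_)
  rw [← Real.rpow_natCast, ← Real.rpow_mul (by linarith)]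
  congr 1
  rw [Nat.cast_sub hM1, Nat.cast_one]
  field_simp

end Pool.Agent.R323.NA
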