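import Pool.Agent.R323.NA.B

/-!
# Counting vanishing sums with a small radical
-/

set_option autoImplicit false

namespace Pool.Agent.R323.NA

open Finset Pool.Agent.R323.SE

variable {n : ℕ}

/-- the entries outside `K` -/
def rs (K : Finset (Fin n)) (x : Fin n → ℤ) : Fin n → ℤ := fun j => if j ∈ K then 0 else x j

theorem sum_rs (K : Finset (Fin n)) (x : Fin n → ℤ) : ∑ j, rs K x j = ∑ j ∈ Kᶜ, x j := by
  classical
  rw [← Finset.sum_filter_add_sum_filter_not Finset.univ (fun j => j ∈ K) (rs K x)]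
  have h1 : ∑ j ∈ Finset.univ.filter (fun j => j ∈ K), rs K x j = 0 := by
    refine Finset.sum_eq_zero fun j hj => ?_
    unfold rs
    rw [if_pos (Finset.mem_filter.1 hj).2]
  have h2 : Finset.univ.filter (fun j => ¬ j ∈ K) = Kᶜ := by
    ext j
    simp
  rw [h1, zero_add, h2]
  refine Finset.sum_congr rfl fun j hj => ?_
  unfold rs
  rw [if_neg (Finset.mem_compl.1 hj)]

theorem fiber_card (hn : 3 ≤ n) {X Q F₁ F₂ : ℕ} {K : Finset (Fin n)} (hK : K ∈ FF n)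
    (T : Finset (Fin n → ℤ)) (hT : ∀ x ∈ T, Adm x ∧ (∀ i, |x i| ≤ (X : ℤ)) ∧ QK x K = Q)
    (h1 : (SM X Q).card + 1 ≤ F₁)
    (h2 : ∀ B : ℕ, 1 ≤ B → B ≤ Q * (n * X) → (SM X B).card ≤ F₂) :
    T.card ≤ F₂ ^ n * F₁ ^ n := by
  classical
  have hQ : ∀ x ∈ T, ∀ p : ℕ, p ∈ PP x → II x p ≠ K → p ∣ Q := by
    intro x hx p hp hpK
    rw [← (hT x hx).2.2]
    exact Finset.dvd_prod_of_mem _ (Finset.mem_filter.2 ⟨hp, hpK⟩)
  have hP : ∀ x ∈ T, ∀ p : ℕ, p.Prime → ∀ j, (p : ℤ) ∣ x j → p ∈ PP x := by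
    intro x hx p hp j hj
    exact (mem_PP ((hT x hx).1.ne_zero hn)).2 ⟨hp, j, hj⟩
  refine (Finset.card_le_mul_card_image (f := rs K) T (F₂ ^ n) ?_).trans
    (Nat.mul_le_mul_left _ ?_)
  · intro y hy
    obtain ⟨x₀, hx₀, rfl⟩ := Finset.mem_image.1 hy
    obtain ⟨hA, hX, hQ₀⟩ := hT x₀ hx₀
    obtain ⟨hK1, hK2⟩ := mem_FF.1 hK
    have hs : ∑ j ∈ Kᶜ, x₀ j ≠ 0 := by
      refine hA.2.2 Kᶜ ?_ ?_
      · rw [← Finset.card_pos, Finset.card_compl, Fintype.card_fin]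
        omega
      · intro h
        rw [Finset.compl_eq_univ_iff] at h
        rw [h] at hK1
        exact Finset.not_nonempty_empty hK1
    obtain ⟨B, hB⟩ : ∃ B, B = Q * (∑ j ∈ Kᶜ, x₀ j).natAbs := ⟨_, rfl⟩
    have hQpos : 0 < Q := by
      rw [← hQ₀]
      exact prod_pos' _ x₀ (Finset.filter_subset _ _)
    have hB1 : 1 ≤ B := by
      rw [hB]
      exact Nat.mul_pos hQpos (Int.natAbs_pos.2 hs)
    have hB2 : B ≤ Q * (n * X) := by
      rw [hB]
      refine Nat.mul_le_mul_left _ ?_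
      have h3 : |∑ j ∈ Kᶜ, x₀ j| ≤ ((n * X : ℕ) : ℤ) := by
        calc |∑ j ∈ Kᶜ, x₀ j| ≤ ∑ j ∈ Kᶜ, |x₀ j| := Finset.abs_sum_le_sum_abs _ _
          _ ≤ ∑ _j ∈ Kᶜ, (X : ℤ) := Finset.sum_le_sum fun j _ => hX j
          _ = ((Kᶜ.card * X : ℕ) : ℤ) := by
              rw [Finset.sum_const, nsmul_eq_mul]
              push_cast
              ring
          _ ≤ _ := by
              have h4 : Kᶜ.card ≤ n := by
                have := Finset.card_le_univ (Kᶜ)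
                rwa [Fintype.card_fin] at this
              exact_mod_cast Nat.mul_le_mul_right X h4
      rw [Int.abs_eq_natAbs] at h3
      exact_mod_cast h3
    have h3 : (T.filter fun x => rs K x = rs K x₀) ⊆ Fintype.piFinset fun _ => SM X B := by
      intro x hx
      obtain ⟨hx1, hx2⟩ := Finset.mem_filter.1 hx
      obtain ⟨hA', hX', -⟩ := hT x hx1
      rw [Fintype.mem_piFinset]
      intro j
      rw [mem_SM]
      refine ⟨hX' j, hA'.ne_zero hn j, fun p hp hpj => ?_⟩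
      have hpP := hP x hx1 p hp j hpj
      by_cases hpK : II x p = K
      · rw [hB]
        refine Dvd.dvd.mul_left (Int.natCast_dvd.1 ?_) _
        have e1 : ∑ k ∈ Kᶜ, x₀ k = ∑ k ∈ Kᶜ, x k := by
          rw [← sum_rs, ← sum_rs, hx2]
        have e2 : ∑ k ∈ Kᶜ, x k = -∑ k ∈ K, x k := by
          have := Finset.sum_add_sum_compl K x
          rw [hA'.1] at this
          linarith
        rw [e1, e2, dvd_neg]
        refine Finset.dvd_sum fun k hk => ?_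
        rw [← hpK] at hk
        exact mem_II.1 hk
      · rw [hB]
        exact Dvd.dvd.mul_right (hQ x hx1 p hpP hpK) _
    refine (Finset.card_le_card h3).trans ?_
    rw [Fintype.card_piFinset, Finset.prod_const, Finset.card_univ, Fintype.card_fin]
    exact Nat.pow_le_pow_left (h2 B hB1 hB2) n
  · have h3 : T.image (rs K) ⊆ Fintype.piFinset fun _ => insert 0 (SM X Q) := by
      intro y hy
      obtain ⟨x, hx, rfl⟩ := Finset.mem_image.1 hy
      obtain ⟨hA, hX, hQ₀⟩ := hT x hx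
      rw [Fintype.mem_piFinset]
      intro j
      unfold rs
      by_cases hj : j ∈ K
      · rw [if_pos hj]
        exact Finset.mem_insert_self _ _
      · rw [if_neg hj]
        refine Finset.mem_insert_of_mem ?_
        rw [mem_SM]
        refine ⟨hX j, hA.ne_zero hn j, fun p hp hpj => ?_⟩
        refine hQ x hx p (hP x hx p hp j hpj) ?_
        intro h
        apply hj
        rw [← h]
        exact mem_II.2 hpj
    refine (Finset.card_le_card h3).trans ?_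
    rw [Fintype.card_piFinset, Finset.prod_const, Finset.card_univ, Fintype.card_fin]
    exact Nat.pow_le_pow_left ((Finset.card_insert_le _ _).trans h1) n

/-- **Vanishing sums with a small radical.** -/
theorem main (n : ℕ) (hn : 3 ≤ n) (l ε : ℝ) (hl : 0 ≤ l) (hε : 0 < ε) : ∃ C : ℝ, ∀ X : ℕ, 1 ≤ X →
    ∀ T : Finset (Fin n → ℤ),
      (∀ x ∈ T, Adm x ∧ (∀ i, |x i| ≤ (X : ℤ)) ∧ (RR x : ℝ) ≤ (X : ℝ) ^ l) →
        (T.card : ℝ) ≤ C * (X : ℝ) ^ (l * (1 - 1 / ((2 ^ n - n - 2 : ℕ) : ℝ)) + ε) := by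
  classical
  obtain ⟨M, hM⟩ : ∃ M, M = 2 ^ n - n - 2 := ⟨_, rfl⟩
  rw [← hM]
  have hMc : (FF n).card ≤ M := by
    have := card_FF hn
    omega
  have hM1 : 1 ≤ M := by
    have h1 : (FF n).Nonempty := by
      refine ⟨{⟨0, by omega⟩}, mem_FF.2 ⟨Finset.singleton_nonempty _, ?_⟩⟩
      rw [Finset.card_singleton]
      omega
    have := Finset.card_pos.2 h1
    omega
  obtain ⟨θ, hθ⟩ : ∃ θ : ℝ, θ = l * (1 - 1 / (M : ℝ)) := ⟨_, rfl⟩
  rw [← hθ]
  have hMR : (1 : ℝ) ≤ M := by exact_mod_cast hM1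
  have hM2 : 0 ≤ 1 - 1 / (M : ℝ) := by
    have : 1 / (M : ℝ) ≤ 1 := by
      rw [div_le_one (by linarith)]
      exact hMR
    linarith
  have hθ0 : 0 ≤ θ := by rw [hθ]; exact mul_nonneg hl hM2
  have hθl : θ ≤ l := by
    rw [hθ]
    have : 0 ≤ 1 / (M : ℝ) := by positivity
    nlinarith
  have hn0 : (0 : ℝ) < n := by
    have : 0 < n := by omega
    exact_mod_cast this
  obtain ⟨η, hη⟩ : ∃ η : ℝ, η = ε / (2 * n * (l + 2)) := ⟨_, rfl⟩
  have hη0 : 0 < η := by rw [hη]; positivity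
  obtain ⟨C, hC, hSM⟩ := card_SM η hη0
  obtain ⟨D, hD⟩ : ∃ D : ℝ, D = C * (n : ℝ) ^ η + C + 1 := ⟨_, rfl⟩
  have hD1 : 1 ≤ D := by rw [hD]; have : 0 ≤ C * (n : ℝ) ^ η := by positivity
                         linarith
  refine ⟨(M : ℝ) * ((2 * D) ^ n * (2 * D) ^ n), fun X hX T hT => ?_⟩
  have hXR : (1 : ℝ) ≤ X := by exact_mod_cast hX
  have hX0 : (0 : ℝ) < X := by linarith
  obtain ⟨F, hF⟩ : ∃ F : ℕ, F = ⌊2 * D * (X : ℝ) ^ (η * (l + 2))⌋₊ := ⟨_, rfl⟩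
  have hXp : (1 : ℝ) ≤ (X : ℝ) ^ (η * (l + 2)) := Real.one_le_rpow hXR (by positivity)
  have hFle : (F : ℝ) ≤ 2 * D * (X : ℝ) ^ (η * (l + 2)) := by
    rw [hF]
    exact Nat.floor_le (by positivity)
  -- choice of the sets
  have hK : ∀ x : Fin n → ℤ, ∃ K : Finset (Fin n), x ∈ T → K ∈ FF n ∧ RR x ≤ (RK x K) ^ M := by
    intro x
    by_cases hx : x ∈ T
    · obtain ⟨K, h1, h2⟩ := exists_K hn (hT x hx).1 hMc
      exact ⟨K, fun _ => ⟨h1, h2⟩⟩
    · exact ⟨∅, fun h => absurd h hx⟩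
  choose K hK using hK
  obtain ⟨Qm, hQm⟩ : ∃ Qm : ℕ, Qm = ⌊(X : ℝ) ^ θ⌋₊ := ⟨_, rfl⟩
  have hQmle : (Qm : ℝ) ≤ (X : ℝ) ^ θ := by
    rw [hQm]
    exact Nat.floor_le (by positivity)
  have hQ : ∀ x ∈ T, QK x (K x) ∈ Finset.Icc 1 Qm := by
    intro x hx
    rw [Finset.mem_Icc]
    refine ⟨prod_pos' _ x (Finset.filter_subset _ _), ?_⟩
    rw [hQm]
    refine Nat.le_floor ?_
    refine (QK_le hM1 (hK x hx).2).trans ?_
    calc (RR x : ℝ) ^ (1 - 1 / (M : ℝ)) ≤ ((X : ℝ) ^ l) ^ (1 - 1 / (M : ℝ)) :=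
          Real.rpow_le_rpow (Nat.cast_nonneg _) (hT x hx).2.2 hM2
      _ = (X : ℝ) ^ θ := by rw [← Real.rpow_mul hX0.le, hθ]
  have hcount : T.card ≤ (F ^ n * F ^ n) * (FF n ×ˢ Finset.Icc 1 Qm).card := by
    refine Finset.card_le_mul_card_image_of_maps_to (f := fun x => (K x, QK x (K x)))
      (fun x hx => Finset.mem_product.2 ⟨(hK x hx).1, hQ x hx⟩) _ ?_
    rintro ⟨K₀, Q₀⟩ hKQ
    obtain ⟨h1, h2⟩ := Finset.mem_product.1 hKQ
    rw [Finset.mem_Icc] at h2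
    have hQ₀1 : (1 : ℝ) ≤ Q₀ := by exact_mod_cast h2.1
    have hQ₀ : (Q₀ : ℝ) ≤ (X : ℝ) ^ l := by
      have h3 : (Q₀ : ℝ) ≤ (Qm : ℝ) := by exact_mod_cast h2.2
      exact h3.trans (hQmle.trans (Real.rpow_le_rpow_of_exponent_le hXR hθl))
    refine fiber_card hn (X := X) (Q := Q₀) h1 _ ?_ ?_ ?_
    · intro x hx
      obtain ⟨h3, h4⟩ := Finset.mem_filter.1 hx
      have h5 := Prod.mk.inj h4
      refine ⟨(hT x h3).1, (hT x h3).2.1, ?_⟩
      rw [← h5.1]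
      exact h5.2
    · rw [hF]
      refine Nat.le_floor ?_
      push_cast
      have h3 := hSM X Q₀ hX h2.1
      have h4 : (Q₀ : ℝ) ^ η ≤ (X : ℝ) ^ (l * η) := by
        rw [Real.rpow_mul hX0.le]
        exact Real.rpow_le_rpow (by positivity) hQ₀ hη0.le
      have h5 : (X : ℝ) ^ η * (Q₀ : ℝ) ^ η ≤ (X : ℝ) ^ (η * (l + 2)) := by
        calc (X : ℝ) ^ η * (Q₀ : ℝ) ^ η ≤ (X : ℝ) ^ η * (X : ℝ) ^ (l * η) :=
              mul_le_mul_of_nonneg_left h4 (by positivity)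
          _ = (X : ℝ) ^ (η + l * η) := by rw [Real.rpow_add hX0]
          _ ≤ _ := Real.rpow_le_rpow_of_exponent_le hXR (by nlinarith)
      have h6 : C * ((X : ℝ) ^ η * (Q₀ : ℝ) ^ η) ≤ D * (X : ℝ) ^ (η * (l + 2)) := by
        refine mul_le_mul ?_ h5 (by positivity) (by linarith)
        rw [hD]
        have : 0 ≤ C * (n : ℝ) ^ η := by positivity
        linarith
      have h7 : (1 : ℝ) ≤ D * (X : ℝ) ^ (η * (l + 2)) := by nlinarith
      linarith
    · intro B hB1 hB2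
      rw [hF]
      refine Nat.le_floor ?_
      have h3 := hSM X B hX hB1
      have hB3 : (B : ℝ) ≤ (n : ℝ) * (X : ℝ) ^ (l + 1) := by
        have e1 : (B : ℝ) ≤ (Q₀ : ℝ) * ((n : ℝ) * (X : ℝ)) := by exact_mod_cast hB2
        refine e1.trans ?_
        rw [Real.rpow_add hX0, Real.rpow_one]
        calc (Q₀ : ℝ) * ((n : ℝ) * (X : ℝ)) ≤ (X : ℝ) ^ l * ((n : ℝ) * (X : ℝ)) :=
              mul_le_mul_of_nonneg_right hQ₀ (by positivity)
          _ = _ := by ring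
      have h4 : (B : ℝ) ^ η ≤ (n : ℝ) ^ η * (X : ℝ) ^ ((l + 1) * η) := by
        rw [Real.rpow_mul hX0.le, ← Real.mul_rpow (by positivity) (by positivity)]
        exact Real.rpow_le_rpow (by positivity) hB3 hη0.le
      have h5 : C * ((X : ℝ) ^ η * (B : ℝ) ^ η) ≤ C * (n : ℝ) ^ η * (X : ℝ) ^ (η * (l + 2)) := by
        calc C * ((X : ℝ) ^ η * (B : ℝ) ^ η) ≤
              C * ((X : ℝ) ^ η * ((n : ℝ) ^ η * (X : ℝ) ^ ((l + 1) * η))) :=
              mul_le_mul_of_nonneg_left (mul_le_mul_of_nonneg_left h4 (by positivity)) hC.le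
          _ = C * (n : ℝ) ^ η * ((X : ℝ) ^ η * (X : ℝ) ^ ((l + 1) * η)) := by ring
          _ = C * (n : ℝ) ^ η * (X : ℝ) ^ (η * (l + 2)) := by
              rw [← Real.rpow_add hX0]
              congr 2
              ring
      have h6 : C * (n : ℝ) ^ η * (X : ℝ) ^ (η * (l + 2)) ≤ 2 * D * (X : ℝ) ^ (η * (l + 2)) := by
        refine mul_le_mul_of_nonneg_right ?_ (by positivity)
        have : 0 ≤ C * (n : ℝ) ^ η := by positivity
        rw [hD]
        linarith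
      exact h3.trans (h5.trans h6)
  have h1 : (T.card : ℝ) ≤ ((F : ℝ) ^ n * (F : ℝ) ^ n) * ((M : ℝ) * (X : ℝ) ^ θ) := by
    have e1 : (T.card : ℝ) ≤ ((F : ℝ) ^ n * (F : ℝ) ^ n) * (((FF n).card : ℝ) * (Qm : ℝ)) := by
      have : (FF n ×ˢ Finset.Icc 1 Qm).card = (FF n).card * Qm := by
        rw [Finset.card_product, Nat.card_Icc, Nat.add_sub_cancel]
      rw [this] at hcount
      exact_mod_cast hcount
    refine e1.trans (mul_le_mul_of_nonneg_left (mul_le_mul ?_ hQmle (by positivity)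
      (by positivity)) (by positivity))
    exact_mod_cast hMc
  have h2 : (F : ℝ) ^ n ≤ (2 * D) ^ n * (X : ℝ) ^ (ε / 2) := by
    calc (F : ℝ) ^ n ≤ (2 * D * (X : ℝ) ^ (η * (l + 2))) ^ n :=
          pow_le_pow_left₀ (Nat.cast_nonneg _) hFle n
      _ = (2 * D) ^ n * (X : ℝ) ^ (ε / 2) := by
          rw [mul_pow]
          congr 1
          rw [← Real.rpow_natCast, ← Real.rpow_mul hX0.le]
          congr 1
          rw [hη]
          have : l + 2 ≠ 0 := by linarith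
          field_simp
  calc (T.card : ℝ) ≤ ((F : ℝ) ^ n * (F : ℝ) ^ n) * ((M : ℝ) * (X : ℝ) ^ θ) := h1
    _ ≤ (((2 * D) ^ n * (X : ℝ) ^ (ε / 2)) * ((2 * D) ^ n * (X : ℝ) ^ (ε / 2))) *
          ((M : ℝ) * (X : ℝ) ^ θ) :=
        mul_le_mul_of_nonneg_right (mul_le_mul h2 h2 (by positivity) (by positivity))
          (by positivity)
    _ = (M : ℝ) * ((2 * D) ^ n * (2 * D) ^ n) *
          ((X : ℝ) ^ θ * ((X : ℝ) ^ (ε / 2) * (X : ℝ) ^ (ε / 2))) := by ring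
    _ = _ := by
        rw [← Real.rpow_add hX0, ← Real.rpow_add hX0]
        congr 2
        ring

end Pool.Agent.R323.NA
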